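import Pool.Agent.Helper54.DI.StmtsA

namespace Pool.Agent.Helper54.DI

open Finset Filter Topology

theorem toP_eval95 {d : ℕ} (f : KForm d) (x : Fin d → ℝ) :
    MvPolynomial.aeval x (toP f) = kev f x := by
  unfold toP kev
  rw [map_add, map_sum]
  simp only [map_mul, MvPolynomial.aeval_C, MvPolynomial.aeval_X]
  rfl

theorem st_SAPRE : ST_SAPRE := by
  intro k d A φ hA
  obtain ⟨G, hG⟩ := hA
  have key : ∀ (x : Fin d → ℝ) (g : MvPolynomial (Fin k) KK),
      MvPolynomial.aeval x (MvPolynomial.bind₁ (fun i => toP (φ.M i, φ.v i)) g) =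
        MvPolynomial.aeval (nev φ x) g := by
    intro x g
    rw [MvPolynomial.aeval_bind₁]
    congr 2
    funext i
    rw [toP_eval95]
    rfl
  refine ⟨G.map (fun g => MvPolynomial.bind₁ (fun i => toP (φ.M i, φ.v i)) g), ?_⟩
  intro x y h
  refine hG (nev φ x) (nev φ y) ?_
  intro g hg
  have h1 := h _ (List.mem_map.2 ⟨g, hg, rfl⟩)
  rw [key, key] at h1
  exact h1

theorem nm_le95 {d k : ℕ} (ι : NM d k) : d ≤ k := by
  have hinj : Function.Injective ι.I := by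
    intro j j' h
    have h1 : ι.M (ι.I j) = ι.M (ι.I j') := by rw [h]
    rw [ι.hM, ι.hM] at h1
    have h2 := congrFun h1 j
    rw [Pi.single_eq_same, Pi.single_apply] at h2
    by_contra hne
    rw [if_neg hne] at h2
    exact one_ne_zero h2
  have := Fintype.card_le_of_injective _ hinj
  simpa using this

theorem st_GEO (hSLIN : ST_SLIN) (hCONE : ST_CONE) (hLOC : ST_LOC) (hGEOT : ST_GEOT)
    (hGEOH : ST_GEOH) (hSAPRE : ST_SAPRE) : ST_GEO := by
  classical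
  intro k A hSA hns
  have h1 : ∃ (d : ℕ) (ι : NM d k), ¬ Cov (frontier (nev ι ⁻¹' A)) := by
    by_contra hcon
    refine hns (hSLIN k A ?_)
    intro d ι
    by_contra hc
    exact hcon ⟨d, ι, hc⟩
  obtain ⟨d0, ι0, hι0⟩ := h1
  have hd0 : d0 ≤ k := nm_le95 ι0
  have hspec : ∃ ι : NM (Nat.findGreatest
      (fun d => ∃ ι : NM d k, ¬ Cov (frontier (nev ι ⁻¹' A))) k) k,
      ¬ Cov (frontier (nev ι ⁻¹' A)) :=
    Nat.findGreatest_spec (P := fun d => ∃ ι : NM d k, ¬ Cov (frontier (nev ι ⁻¹' A)))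
      hd0 ⟨ι0, hι0⟩
  have hmax : ∀ (d' : ℕ) (ι : NM d' k), Nat.findGreatest
      (fun d => ∃ ι : NM d k, ¬ Cov (frontier (nev ι ⁻¹' A))) k < d' →
      Cov (frontier (nev ι ⁻¹' A)) := by
    intro d' ι hlt
    by_contra hc
    exact Nat.findGreatest_is_greatest hlt (nm_le95 ι) ⟨ι, hc⟩
  generalize Nat.findGreatest
      (fun d => ∃ ι : NM d k, ¬ Cov (frontier (nev ι ⁻¹' A))) k = d at hspec hmax
  obtain ⟨φ, hφ⟩ := hspec
  obtain ⟨H, Z, hH0, hH1, hZ, hcone⟩ := hCONE k d A hmax φ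
  obtain ⟨w, hw, J, l, F, hlJ, hF3, hFw, hdep, hid, hna, hsh⟩ :=
    hLOC d (nev φ ⁻¹' A) (hSAPRE k d A φ hSA) hφ Z hZ
  obtain ⟨ε, hε, hcs⟩ := hcone w hw
  rcases hsh with hs | hs | ⟨hJ, hs⟩
  · exact hGEOT k d A A φ w J l F H ε (Or.inl rfl) hε hH0 hH1 hcs hlJ hF3 hFw hdep hid hna
      (hs.mono fun x hx => hx)
  · refine hGEOT k d A Aᶜ φ w J l F H ε (Or.inr rfl) hε hH0 hH1 hcs hlJ hF3 hFw hdep hid hna
      (hs.mono fun x hx => ?_)
    rw [Set.mem_compl_iff]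
    constructor
    · intro h
      by_contra hne
      exact h (hx.2 hne)
    · intro h h'
      exact (hx.1 h') h
  · refine hGEOH k d A φ w J l F H ε hε hH0 hH1 hcs hlJ hF3 hFw hdep hid hna hJ ?_
    rcases hs with hs | hs
    · exact Or.inl (hs.mono fun x hx => hx)
    · exact Or.inr (hs.mono fun x hx => hx)

end Pool.Agent.Helper54.DI
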